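import Pool.Agent.H30.VX.Targets

/-!
# MP_d32443_co, large `k`: row CMB (two paths of a system and a path between their starts)
-/

set_option autoImplicit false

open Finset Pool.Agent.H48.CE Pool.Agent.H30.VR Pool.Agent.H30.VX

namespace Pool.Agent.H67.VX

/-- a list with a given head and a given last vertex and at least two elements -/
theorem ends_split {V : Type} {l : List V} {x y : V} (hl : 2 ≤ l.length)
    (hx : l.head? = some x) (hy : l.getLast? = some y) : ∃ m, l = x :: (m ++ [y]) := by
  cases l with
  | nil => simp at hl
  | cons a m =>
    rw [List.head?_cons, Option.some.injEq] at hx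
    subst hx
    have hm : m ≠ [] := by
      rintro rfl
      simp at hl
    rw [List.getLast?_cons_of_ne_nil hm] at hy
    refine ⟨m.dropLast, ?_⟩
    have h1 := List.getLast?_eq_some_getLast hm
    rw [hy, Option.some.injEq] at h1
    rw [h1, List.dropLast_append_getLast]

/-- (CMB) -/
theorem pf_CMB : T_CMB := by
  classical
  intro V ι G a Y Q hQ i j l y y' hij hl hlQ hy hy'
  have hni : Q i ≠ [] := by
    intro h
    have := hQ.head i
    rw [h] at this
    simp at this
  have hnj : Q j ≠ [] := by
    intro h
    have := hQ.head j
    rw [h] at this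
    simp at this
  have hhead : ((Q i).reverse ++ (l ++ Q j)).head? = some y := by
    rw [List.head?_append_of_ne_nil _ (by simpa using hni), List.head?_reverse, hy]
  have hlast : ((Q i).reverse ++ (l ++ Q j)).getLast? = some y' := by
    rw [← List.append_assoc, List.getLast?_append_of_ne_nil _ hnj, hy']
  have hlen : 2 ≤ ((Q i).reverse ++ (l ++ Q j)).length := by
    have h1 : 0 < (Q i).length := List.length_pos_iff.2 hni
    have h2 : 0 < (Q j).length := List.length_pos_iff.2 hnj
    simp
    omega
  obtain ⟨m, hm⟩ := ends_split hlen hhead hlast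
  have hl1 := hl.1
  have hl2 := hl.2
  have hnodup : ((Q i).reverse ++ (l ++ Q j)).Nodup := by
    rw [List.nodup_append, List.nodup_append]
    rw [List.nodup_cons, List.nodup_append] at hl1
    refine ⟨List.nodup_reverse.2 (hQ.nodup i), ⟨hl1.2.1, hQ.nodup j, ?_⟩, ?_⟩
    · intro u hu v hv huv
      subst huv
      exact hlQ u hu j hv
    · intro u hu v hv huv
      subst huv
      rw [List.mem_reverse] at hu
      rw [List.mem_append] at hv
      rcases hv with hv | hv
      · exact hlQ u hv i hu
      · exact hQ.disj i j hij u hu hv
  have hrev : (Q i).reverse.IsChain G.Adj := by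
    rw [List.isChain_reverse]
    exact (hQ.chain i).imp fun _ _ h => h.symm
  have hchain : ((Q i).reverse ++ (l ++ Q j)).IsChain G.Adj := by
    rw [show a i :: (l ++ [a j]) = [a i] ++ (l ++ [a j]) by simp, List.isChain_append,
      List.isChain_append] at hl2
    rw [List.isChain_append, List.isChain_append]
    refine ⟨hrev, ⟨hl2.2.1.1, hQ.chain j, ?_⟩, ?_⟩
    · intro u hu v hv
      rw [hQ.head j] at hv
      rw [Option.mem_def, Option.some.injEq] at hv
      rw [← hv]
      exact hl2.2.1.2.2 u hu (a j) (by simp)
    · intro u hu v hv
      rw [List.getLast?_reverse, hQ.head i, Option.mem_def, Option.some.injEq] at hu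
      rw [← hu]
      refine hl2.2.2 (a i) (by simp) v ?_
      cases l with
      | nil =>
        rw [List.nil_append, hQ.head j] at hv
        simpa using hv
      | cons b m' => simpa using hv
  refine ⟨m, ?_, ?_, ?_⟩
  · have := congrArg List.length hm
    simp at this
    omega
  · unfold Pt
    rw [← hm]
    exact ⟨hnodup, hchain⟩
  · intro v hv
    have : v ∈ (Q i).reverse ++ (l ++ Q j) := by
      rw [hm]
      simp [hv]
    rw [List.mem_append, List.mem_append, List.mem_reverse] at this
    rcases this with h | h | h
    · exact Or.inl h
    · exact Or.inr (Or.inr h)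
    · exact Or.inr (Or.inl h)

end Pool.Agent.H67.VX
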