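import Pool.Agent.H30.VX.Targets

/-!
# MP_d32443_co, large `k`: row EAR (a path outside `S` with two different ends in `S`)
-/

set_option autoImplicit false

open Finset Pool.Agent.H48.CE Pool.Agent.H30.VR Pool.Agent.H30.VX

namespace Pool.Agent.H67.VX

/-- The subgraph without the edges which meet `S`. -/
def outS {V : Type} (G : SimpleGraph V) (S : Finset V) : SimpleGraph V where
  Adj a b := G.Adj a b ∧ a ∉ S ∧ b ∉ S
  symm := ⟨fun _ _ h => ⟨h.1.symm, h.2.2, h.2.1⟩⟩
  loopless := ⟨fun _ h => G.loopless.irrefl _ h.1⟩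

theorem reach_out {V : Type} {G : SimpleGraph V} {S : Finset V} {v u : V} (hv : v ∉ S)
    (h : (outS G S).Reachable v u) : u ∉ S := by
  obtain ⟨w⟩ := h
  induction w with
  | nil => exact hv
  | cons hadj _ ih => exact ih hadj.2.2

theorem support_out {V : Type} {G : SimpleGraph V} {S : Finset V} {p q : V} (hp : p ∉ S)
    (w : (outS G S).Walk p q) : ∀ x ∈ w.support, x ∉ S := by
  induction w with
  | nil =>
    intro x hx
    rw [SimpleGraph.Walk.support_nil, List.mem_singleton] at hx
    rw [hx]
    exact hp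
  | cons hadj w ih =>
    intro x hx
    rw [SimpleGraph.Walk.support_cons, List.mem_cons] at hx
    rcases hx with rfl | hx
    · exact hp
    · exact ih hadj.2.2 x hx

/-- a path outside `S` from a neighbour of `x` to a neighbour of `y` -/
theorem pt_out {V : Type} {G : SimpleGraph V} {S : Finset V} {x y p q : V} (hx : x ∈ S)
    (hy : y ∈ S) (hxy : x ≠ y) (hp : p ∉ S) (hxp : G.Adj x p) (hqy : G.Adj q y)
    (h : (outS G S).Reachable p q) :
    ∃ l : List V, l ≠ [] ∧ Pt G x l y ∧ ∀ v ∈ l, v ∉ S := by
  classical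
  obtain ⟨w0⟩ := h
  obtain ⟨w, hw⟩ : ∃ w : (outS G S).Walk p q, w.IsPath := ⟨w0.toPath.1, w0.toPath.2⟩
  have hout := support_out hp w
  refine ⟨w.support, SimpleGraph.Walk.support_ne_nil w, ⟨?_, ?_⟩, hout⟩
  · rw [List.nodup_cons, List.nodup_append]
    refine ⟨?_, hw.support_nodup, List.nodup_singleton _, ?_⟩
    · rw [List.mem_append, List.mem_singleton]
      rintro (h | h)
      · exact hout x h hx
      · exact hxy h
    · intro a ha b hb hab
      rw [List.mem_singleton] at hb
      subst hb
      rw [hab] at ha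
      exact hout _ ha hy
  · have h1 : w.support.IsChain G.Adj := w.isChain_adj_support.imp fun _ _ h => h.1
    have hlast : w.support.getLast? = some q := by
      rw [List.getLast?_eq_some_getLast (SimpleGraph.Walk.support_ne_nil w),
        SimpleGraph.Walk.getLast_support]
    have h2 : (w.support ++ [y]).IsChain G.Adj := by
      rw [List.isChain_append]
      refine ⟨h1, List.isChain_singleton _, ?_⟩
      intro a ha b hb
      rw [hlast] at ha
      rw [List.head?_cons] at hb
      rw [Option.mem_def, Option.some.injEq] at ha hb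
      rw [← ha, ← hb]
      exact hqy
    have h3 : w.support = p :: w.support.tail := (SimpleGraph.Walk.cons_tail_support w).symm
    rw [h3, List.cons_append] at h2 ⊢
    exact List.IsChain.cons_cons hxp h2

/-- (EAR) -/
theorem pf_EAR : T_EAR := by
  classical
  intro V _ G S hCon hS ⟨v, hv⟩
  set C : Finset V := univ.filter fun u => (outS G S).Reachable v u with hC
  set N : Finset V := S.filter fun s => ∃ u ∈ C, G.Adj u s with hN
  have hvC : v ∈ C := by
    rw [hC, mem_filter]
    exact ⟨mem_univ _, SimpleGraph.Reachable.refl _⟩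
  have hCS : ∀ u ∈ C, u ∉ S := fun u hu => reach_out hv (mem_filter.1 hu).2
  have hN2 : 1 < N.card := by
    have hcov : ∀ x, x ∈ C ∪ N ∨ x ∈ univ.filter fun u => u ∉ C := by
      intro x
      by_cases hx : x ∈ C
      · exact Or.inl (mem_union_left _ hx)
      · exact Or.inr (mem_filter.2 ⟨mem_univ _, hx⟩)
    have hsep : ∀ x ∈ C ∪ N, x ∉ univ.filter (fun u => u ∉ C) →
        ∀ y ∈ univ.filter (fun u => u ∉ C), y ∉ C ∪ N → ¬ G.Adj x y := by
      intro x hx hxB y hyB hyA hadj
      have hxC : x ∈ C := by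
        by_contra h
        exact hxB (mem_filter.2 ⟨mem_univ _, h⟩)
      have hyC : y ∉ C := (mem_filter.1 hyB).2
      by_cases hyS : y ∈ S
      · exact hyA (mem_union_right _ (mem_filter.2 ⟨hyS, x, hxC, hadj⟩))
      · apply hyC
        rw [hC, mem_filter]
        refine ⟨mem_univ _, (mem_filter.1 hxC).2.trans ?_⟩
        exact SimpleGraph.Adj.reachable (show (outS G S).Adj x y from ⟨hadj, hCS x hxC, hyS⟩)
    rcases hCon _ _ hcov hsep with h | h | ⟨T, hT, hT1⟩
    · have h1 : S ⊆ N := by
        intro s hs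
        rcases mem_union.1 (h s) with h2 | h2
        · exact absurd hs (hCS s h2)
        · exact h2
      have := card_le_card h1
      omega
    · exact absurd hvC (mem_filter.1 (h v)).2
    · refine lt_of_lt_of_le hT1 (card_le_card ?_)
      intro x hx
      rw [hT] at hx
      rcases mem_union.1 hx.1 with h | h
      · exact absurd h (mem_filter.1 hx.2).2
      · exact h
  obtain ⟨x, hx, y, hy, hxy⟩ := one_lt_card.1 hN2
  obtain ⟨hxS, p, hp, hpx⟩ := mem_filter.1 hx
  obtain ⟨hyS, q, hq, hqy⟩ := mem_filter.1 hy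
  have hpq : (outS G S).Reachable p q := (mem_filter.1 hp).2.symm.trans (mem_filter.1 hq).2
  obtain ⟨l, h1, h2, h3⟩ := pt_out hxS hyS hxy (hCS p hp) hpx.symm hqy hpq
  exact ⟨x, hxS, y, hyS, l, h1, h2, h3⟩

end Pool.Agent.H67.VX
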