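import Pool.Agent.H30.VX.Targets

/-!
# MP_d32443_co, large `k`: row NCS (cycles through disjoint segments with ends in a
near-complete set)
-/

set_option autoImplicit false

open Finset Pool.Agent.H48.CE Pool.Agent.H30.VR Pool.Agent.H30.VX

namespace Pool.Agent.H67.VX

theorem sum_range_two_mul' (f : ℕ → ℕ) (p : ℕ) :
    ∑ j ∈ range (2 * p), f j = ∑ i ∈ range p, f (2 * i) + ∑ i ∈ range p, f (2 * i + 1) := by
  induction p with
  | zero => simp
  | succ p ih =>
    rw [show 2 * (p + 1) = 2 * p + 1 + 1 by ring, sum_range_succ, sum_range_succ, ih,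
      sum_range_succ, sum_range_succ]
    ring

/-- an alternating cyclic sequence of lists -/
theorem cyc_alt {V : Type} {G : SimpleGraph V} (hCAT : T_CAT) {p : ℕ} (hp : 1 ≤ p)
    (S T : ℕ → List V) (hS : ∀ i < p, S i ≠ [] ∧ (S i).Nodup ∧ (S i).IsChain G.Adj)
    (hT : ∀ i < p, T i ≠ [] ∧ (T i).Nodup ∧ (T i).IsChain G.Adj)
    (hSS : ∀ i < p, ∀ j < p, i ≠ j → ∀ v ∈ S i, v ∉ S j)
    (hTT : ∀ i < p, ∀ j < p, i ≠ j → ∀ v ∈ T i, v ∉ T j)
    (hST : ∀ i < p, ∀ j < p, ∀ v ∈ S i, v ∉ T j)
    (h1 : ∀ i < p, ∀ x ∈ (S i).getLast?, ∀ y ∈ (T i).head?, G.Adj x y)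
    (h2 : ∀ i < p, ∀ x ∈ (T i).getLast?, ∀ y ∈ (S ((i + 1) % p)).head?, G.Adj x y)
    (h3 : 3 ≤ ∑ i ∈ range p, (S i).length + ∑ i ∈ range p, (T i).length) :
    Cy G (∑ i ∈ range p, (S i).length + ∑ i ∈ range p, (T i).length) := by
  set L : ℕ → List V := fun j => if j % 2 = 0 then S (j / 2) else T (j / 2) with hL
  have e0 : ∀ i, L (2 * i) = S i := by
    intro i
    simp [hL]
  have e1 : ∀ i, L (2 * i + 1) = T i := by
    intro i
    have a1 : (2 * i + 1) % 2 = 1 := by omega
    have a2 : (2 * i + 1) / 2 = i := by omega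
    simp [hL, a1, a2]
  have hsum : ∑ j ∈ range (2 * p), (L j).length =
      ∑ i ∈ range p, (S i).length + ∑ i ∈ range p, (T i).length := by
    rw [sum_range_two_mul']
    congr 1
    · exact sum_congr rfl fun i _ => by rw [e0]
    · exact sum_congr rfl fun i _ => by rw [e1]
  rw [← hsum]
  refine hCAT G (2 * p) L (by omega) ?_ ?_ ?_ (by rw [hsum]; exact h3)
  · intro j hj
    rcases Nat.even_or_odd' j with ⟨i, hi | hi⟩
    · rw [hi, e0]
      exact hS i (by omega)
    · rw [hi, e1]
      exact hT i (by omega)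
  · intro j hj j' hj' hne v hv hv'
    rcases Nat.even_or_odd' j with ⟨i, hi | hi⟩ <;> rcases Nat.even_or_odd' j' with ⟨i', hi' | hi'⟩
    · rw [hi, e0] at hv
      rw [hi', e0] at hv'
      exact hSS i (by omega) i' (by omega) (by omega) v hv hv'
    · rw [hi, e0] at hv
      rw [hi', e1] at hv'
      exact hST i (by omega) i' (by omega) v hv hv'
    · rw [hi, e1] at hv
      rw [hi', e0] at hv'
      exact hST i' (by omega) i (by omega) v hv' hv
    · rw [hi, e1] at hv
      rw [hi', e1] at hv'
      exact hTT i (by omega) i' (by omega) (by omega) v hv hv'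
  · intro j hj x hx y hy
    rcases Nat.even_or_odd' j with ⟨i, hi | hi⟩
    · have hm : (j + 1) % (2 * p) = 2 * i + 1 := by
        rw [hi]
        exact Nat.mod_eq_of_lt (by omega)
      rw [hi, e0] at hx
      rw [hm, e1] at hy
      exact h1 i (by omega) x hx y hy
    · have hm : (j + 1) % (2 * p) = 2 * ((i + 1) % p) := by
        rw [hi, show 2 * i + 1 + 1 = 2 * (i + 1) by ring, Nat.mul_mod_mul_left]
      rw [hi, e1] at hx
      rw [hm, e0] at hy
      exact h2 i (by omega) x hx y hy

open scoped Classical in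
theorem nb_lower {V : Type} {G : SimpleGraph V} {μ : ℕ} {W U : Finset V} (h : NC G μ W)
    (hU : U ⊆ W) {w : V} (hw : w ∈ W) : U.card ≤ (nb G U w).card + μ := by
  have h1 := h w hw
  have h2 : (W \ U).card + U.card = W.card := card_sdiff_add_card_eq_card hU
  have h3 : (nb G W w).card ≤ (nb G U w).card + (W \ U).card := by
    rw [← card_union_of_disjoint]
    · apply card_le_card
      intro x hx
      rw [mem_nb] at hx
      rw [mem_union, mem_nb, mem_sdiff]
      by_cases hxU : x ∈ U
      · exact Or.inl ⟨hxU, hx.2⟩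
      · exact Or.inr ⟨hx.1, hxU⟩
    · rw [disjoint_left]
      intro x hx hx'
      rw [mem_nb] at hx
      rw [mem_sdiff] at hx'
      exact hx'.2 hx.1
  omega

open scoped Classical in
theorem cn_lower {V : Type} {G : SimpleGraph V} {μ : ℕ} {W U : Finset V} (h : NC G μ W)
    (hU : U ⊆ W) {w w' : V} (hw : w ∈ W) (hw' : w' ∈ W) :
    U.card ≤ (U.filter fun u => G.Adj w u ∧ G.Adj w' u).card + 2 * μ := by
  have h1 := nb_lower h hU hw
  have h2 := nb_lower h hU hw'
  have h3 : (U.filter fun u => G.Adj w u ∧ G.Adj w' u) = nb G U w ∩ nb G U w' := by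
    ext u
    rw [mem_filter, mem_inter, mem_nb, mem_nb]
    tauto
  have h4 := card_union_add_card_inter (nb G U w) (nb G U w')
  have h5 : (nb G U w ∪ nb G U w').card ≤ U.card :=
    card_le_card (union_subset (nb_subset _ _) (nb_subset _ _))
  rw [h3]
  omega

/-- (NCS) -/
theorem pf_NCS (hNCP : T_NCP) (hGRD : T_GRD) (hCAT : T_CAT) : T_NCS := by
  classical
  intro V G W U μ p S hNC hUW hp hS hdisj hSU hU g hg hgU
  have hhead : ∀ i : Fin p, ∃ x ∈ W, (S i).head? = some x := fun i => (hS i).2.2.2.1
  have hlast : ∀ i : Fin p, ∃ y ∈ W, (S i).getLast? = some y := fun i => (hS i).2.2.2.2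
  choose hd hdW hdS using hhead
  choose la laW laS using hlast
  -- the connectors
  obtain ⟨c, hc, hcU⟩ := hGRD (ι := Fin (p - 1))
    (fun i => U.filter fun u => G.Adj (la ⟨i, by omega⟩) u ∧ G.Adj (hd ⟨i + 1, by omega⟩) u) ∅
    (by
      intro i
      rw [card_empty, Fintype.card_fin]
      have := cn_lower (U := U) hNC hUW (laW ⟨i, by omega⟩) (hdW ⟨i + 1, by omega⟩)
      omega)
  have hcU' : ∀ i, c i ∈ U ∧ G.Adj (la ⟨i, by omega⟩) (c i) ∧ G.Adj (hd ⟨i + 1, by omega⟩) (c i) :=
    fun i => mem_filter.1 (hcU i).1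
  set C : Finset V := univ.image c with hC
  have hCc : C.card = p - 1 := by
    rw [hC, card_image_of_injective _ hc, card_univ, Fintype.card_fin]
  have hCU : C ⊆ U := by
    intro v hv
    rw [hC, mem_image] at hv
    obtain ⟨i, _, rfl⟩ := hv
    exact (hcU' i).1
  set U' := U \ C with hU'
  have hU'U : U' ⊆ U := sdiff_subset
  have hU'c : U'.card + (p - 1) = U.card := by
    rw [← hCc]
    exact card_sdiff_add_card_eq_card hCU
  have hU'W : U' ⊆ W := hU'U.trans hUW
  set i0 : Fin p := ⟨0, by omega⟩ with hi0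
  set i1 : Fin p := ⟨p - 1, by omega⟩ with hi1
  have hmemlast : ∀ i, la i ∈ S i := fun i => List.mem_of_getLast? (laS i)
  have hmemhead : ∀ i, hd i ∈ S i := fun i => List.mem_of_head? (hdS i)
  have hxy : la i1 ≠ hd i0 := by
    intro heq
    by_cases hii : i1 = i0
    · rw [hii] at heq
      have h2 := (hS i0).1
      have hn := (hS i0).2.1
      have ha := laS i0
      have hb := hdS i0
      rw [heq] at ha
      cases hl : S i0 with
      | nil => rw [hl] at h2; simp at h2
      | cons a m =>
        rw [hl] at ha hb hn h2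
        rw [List.head?_cons, Option.some.injEq] at hb
        subst hb
        have hm : m ≠ [] := by
          rintro rfl
          simp at h2
        rw [List.getLast?_cons_of_ne_nil hm] at ha
        exact (List.nodup_cons.1 hn).1 (List.mem_of_getLast? ha)
    · have := hmemlast i1
      rw [heq] at this
      exact hdisj i1 i0 hii _ this (hmemhead i0)
  obtain ⟨F, hF1, hF2, hF3⟩ := hNCP G U' μ (la i1) (hd i0) (hNC.sub hU'W)
    (fun h => hSU i1 _ (hmemlast i1) (hU'U h)) (fun h => hSU i0 _ (hmemhead i0) (hU'U h)) hxy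
    (nb_lower hNC hU'W (laW i1)) (nb_lower hNC hU'W (hdW i0)) (by omega) (g - (p - 1)) (by omega)
    (by omega)
  have hFne : F ≠ [] := by
    rintro rfl
    simp at hF1
    omega
  have hFhead : ∀ y ∈ F.head?, G.Adj (la i1) y := by
    intro y hy
    have h := hF2.2
    cases hl : F with
    | nil => exact absurd hl hFne
    | cons a m =>
      rw [hl] at hy h
      rw [List.head?_cons, Option.mem_def, Option.some.injEq] at hy
      subst hy
      rw [List.cons_append, List.isChain_cons_cons] at h
      exact h.1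
  have hFlast : ∀ x ∈ F.getLast?, G.Adj x (hd i0) := by
    intro x hx
    have h := hF2.2
    rw [show la i1 :: (F ++ [hd i0]) = (la i1 :: F) ++ [hd i0] by simp, List.isChain_append] at h
    refine h.2.2 x ?_ (hd i0) (by simp)
    rw [List.getLast?_cons_of_ne_nil hFne]
    exact hx
  have hFnd : F.Nodup := by
    have h := hF2.1
    rw [List.nodup_cons, List.nodup_append] at h
    exact h.2.1
  have hFch : F.IsChain G.Adj := by
    have h := hF2.2
    rw [show la i1 :: (F ++ [hd i0]) = [la i1] ++ (F ++ [hd i0]) by simp, List.isChain_append,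
      List.isChain_append] at h
    exact h.2.1.1
  -- the lists
  set S' : ℕ → List V := fun i => if h : i < p then S ⟨i, h⟩ else [] with hS'
  set T' : ℕ → List V := fun i => if h : i < p - 1 then [c ⟨i, h⟩] else F with hT'
  have eS : ∀ i (h : i < p), S' i = S ⟨i, h⟩ := fun i h => by simp [hS', h]
  have eT : ∀ i (h : i < p - 1), T' i = [c ⟨i, h⟩] := fun i h => by simp [hT', h]
  have eF : ∀ i, ¬ i < p - 1 → T' i = F := fun i h => by simp only [hT', h, dite_false]
  have hTU : ∀ i, ∀ v ∈ T' i, v ∈ U := by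
    intro i v hv
    by_cases h : i < p - 1
    · rw [eT i h, List.mem_singleton] at hv
      rw [hv]
      exact (hcU' _).1
    · rw [eF i h] at hv
      exact hU'U (hF3 v hv)
  have hsumS : ∑ i ∈ range p, (S' i).length = ∑ i, (S i).length := by
    rw [sum_range]
    exact sum_congr rfl fun i _ => by rw [eS i i.2]
  have hsumT : ∑ i ∈ range p, (T' i).length = g := by
    obtain ⟨q, rfl⟩ : ∃ q, p = q + 1 := ⟨p - 1, by omega⟩
    rw [sum_range_succ, eF q (by omega), hF1]
    have : ∑ i ∈ range q, (T' i).length = ∑ _i ∈ range q, 1 := by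
      refine sum_congr rfl fun i hi => ?_
      rw [mem_range] at hi
      rw [eT i (by omega)]
      rfl
    rw [this, sum_const, card_range, smul_eq_mul, mul_one]
    omega
  have h3 : 3 ≤ ∑ i ∈ range p, (S' i).length + ∑ i ∈ range p, (T' i).length := by
    rw [hsumS, hsumT]
    have : (S i0).length ≤ ∑ i, (S i).length :=
      single_le_sum (f := fun i => (S i).length) (fun i _ => Nat.zero_le _) (mem_univ i0)
    have h2 := (hS i0).1
    omega
  have hres := cyc_alt (G := G) hCAT hp S' T' ?_ ?_ ?_ ?_ ?_ ?_ ?_ h3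
  · rwa [hsumS, hsumT] at hres
  · intro i hi
    rw [eS i hi]
    obtain ⟨a1, a2, a3, _⟩ := hS ⟨i, hi⟩
    refine ⟨?_, a2, a3⟩
    intro h
    rw [h] at a1
    simp at a1
  · intro i hi
    by_cases h : i < p - 1
    · rw [eT i h]
      exact ⟨by simp, List.nodup_singleton _, List.isChain_singleton _⟩
    · rw [eF i h]
      exact ⟨hFne, hFnd, hFch⟩
  · intro i hi j hj hij v hv hv'
    rw [eS i hi] at hv
    rw [eS j hj] at hv'
    exact hdisj ⟨i, hi⟩ ⟨j, hj⟩ (by simpa using hij) v hv hv'
  · intro i hi j hj hij v hv hv'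
    by_cases h : i < p - 1 <;> by_cases h' : j < p - 1
    · rw [eT i h, List.mem_singleton] at hv
      rw [eT j h', List.mem_singleton] at hv'
      have := hc (hv.symm.trans hv')
      simp at this
      exact hij this
    · rw [eT i h, List.mem_singleton] at hv
      rw [eF j h'] at hv'
      have := hF3 v hv'
      rw [hU', mem_sdiff, hv] at this
      exact this.2 (mem_image_of_mem _ (mem_univ _))
    · rw [eF i h] at hv
      rw [eT j h', List.mem_singleton] at hv'
      have := hF3 v hv
      rw [hU', mem_sdiff, hv'] at this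
      exact this.2 (mem_image_of_mem _ (mem_univ _))
    · omega
  · intro i hi j hj v hv hv'
    rw [eS i hi] at hv
    exact hSU _ v hv (hTU j v hv')
  · intro i hi x hx y hy
    rw [eS i hi, laS, Option.mem_def, Option.some.injEq] at hx
    by_cases h : i < p - 1
    · rw [eT i h, List.head?_cons, Option.mem_def, Option.some.injEq] at hy
      rw [← hx, ← hy]
      exact (hcU' ⟨i, h⟩).2.1
    · rw [eF i h] at hy
      have hii : (⟨i, hi⟩ : Fin p) = i1 := by
        rw [hi1, Fin.mk.injEq]
        omega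
      rw [← hx, hii]
      exact hFhead y hy
  · intro i hi x hx y hy
    by_cases h : i < p - 1
    · rw [eT i h, List.getLast?_singleton, Option.mem_def, Option.some.injEq] at hx
      rw [Nat.mod_eq_of_lt (by omega : i + 1 < p), eS (i + 1) (by omega), hdS, Option.mem_def,
        Option.some.injEq] at hy
      rw [← hx, ← hy]
      exact (hcU' ⟨i, h⟩).2.2.symm
    · rw [eF i h] at hx
      have hm : (i + 1) % p = 0 := by
        rw [show i + 1 = p by omega]
        exact Nat.mod_self p
      rw [hm, eS 0 (by omega), hdS, Option.mem_def, Option.some.injEq] at hy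
      rw [← hy]
      exact hFlast x hx

end Pool.Agent.H67.VX
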