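import Pool.Agent.H30.VX.Targets

/-!
# MP_d32443_co, large `k`: row T2B (counting, `n` is close to `2 k`)
-/

set_option autoImplicit false

open Finset Pool.Agent.H48.CE Pool.Agent.H30.VR Pool.Agent.H30.VX

namespace Pool.Agent.H67.VX

theorem ee_self_le' {V : Type} (G : SimpleGraph V) (S : Finset V) :
    ee G S S + S.card ≤ S.card * S.card := by
  classical
  unfold ee
  have h : ∀ a ∈ S, (nb G S a).card + 1 ≤ S.card := by
    intro a ha
    have h1 : nb G S a ⊆ S.erase a := by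
      intro w hw
      rw [mem_nb] at hw
      rw [mem_erase]
      exact ⟨fun h => G.loopless.irrefl a (by rw [h] at hw; exact hw.2), hw.1⟩
    have h2 := card_le_card h1
    rw [card_erase_of_mem ha] at h2
    have h3 : 0 < S.card := card_pos.2 ⟨a, ha⟩
    omega
  have h2 := sum_le_sum h
  simp only [sum_add_distrib, sum_const, smul_eq_mul, mul_one] at h2
  exact h2

theorem ee_le_of_forall {V : Type} (G : SimpleGraph V) (A B : Finset V) (b : ℕ)
    (h : ∀ v ∈ A, (nb G B v).card ≤ b) : ee G A B ≤ A.card * b := by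
  unfold ee
  calc ∑ a ∈ A, (nb G B a).card ≤ ∑ _a ∈ A, b := sum_le_sum h
    _ = A.card * b := by rw [sum_const, smul_eq_mul]

/-- the arithmetic of T2B -/
theorem arith (k e b w l r n E1 E2 E3 E4 E F : ℕ) (hn : n = w + l + r) (hw : 2 * k ≤ w + e)
    (hwl : w + l ≤ 2 * k + 1) (he : 2000 * e ≤ k) (hk : 100000 ≤ k) (hb : 100 * b ≤ k + 100)
    (h1 : E1 + (w + l) ≤ (w + l) * (w + l)) (h2 : E2 ≤ r * b) (h3 : E3 ≤ r * l)
    (h4 : 50 * E4 ≤ k * r) (hE : E = E1 + 2 * (E2 + E3) + E4)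
    (hF : F + 2 * k * (2 * k + 1) ≤ E) (hn2 : 2 * k + 2 ≤ n)
    (hFF : (n - 2 * k - 1) * min (n - 2 * k) k ≤ F) : 20 * (n - 2 * k - 1) ≤ k := by
  obtain ⟨s, hs⟩ : ∃ s, n = 2 * k + 1 + s := ⟨n - 2 * k - 1, by omega⟩
  obtain ⟨a, ha⟩ : ∃ a, w + l + a = 2 * k + 1 := ⟨2 * k + 1 - (w + l), by omega⟩
  have hr : r = s + a := by omega
  have hs1 : 1 ≤ s := by omega
  have ha1 : a ≤ e + 1 := by omega
  have hl1 : l ≤ e + 1 := by omega
  have hsub : n - 2 * k - 1 = s := by omega
  have hsub2 : n - 2 * k = s + 1 := by omega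
  rw [hsub, hsub2] at hFF
  rw [hsub]
  subst hr
  have hx : w + l = 2 * k + 1 - a := by omega
  -- reals
  have a1 : (E1 : ℝ) + (2 * k + 1 - a) ≤ (2 * k + 1 - a) * (2 * k + 1 - a) := by
    have h : ((w + l : ℕ) : ℝ) = 2 * k + 1 - a := by
      have : ((w + l + a : ℕ) : ℝ) = ((2 * k + 1 : ℕ) : ℝ) := by rw [ha]
      push_cast at this ⊢
      linarith
    have h' : ((E1 + (w + l) : ℕ) : ℝ) ≤ (((w + l) * (w + l) : ℕ) : ℝ) := by exact_mod_cast h1
    rw [Nat.cast_add, Nat.cast_mul, h] at h'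
    exact h'
  have a2 : (E2 : ℝ) ≤ (s + a) * b := by exact_mod_cast h2
  have a3 : (E3 : ℝ) ≤ (s + a) * l := by exact_mod_cast h3
  have a4 : (50 : ℝ) * E4 ≤ k * (s + a) := by exact_mod_cast h4
  have a5 : (F : ℝ) + 2 * k * (2 * k + 1) ≤ E1 + 2 * (E2 + E3) + E4 := by
    rw [hE] at hF
    exact_mod_cast hF
  have b1 : (2000 : ℝ) * e ≤ k := by exact_mod_cast he
  have b2 : (100000 : ℝ) ≤ k := by exact_mod_cast hk
  have b3 : (100 : ℝ) * b ≤ k + 100 := by exact_mod_cast hb
  have b4 : (l : ℝ) ≤ e + 1 := by exact_mod_cast hl1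
  have b5 : (a : ℝ) ≤ e + 1 := by exact_mod_cast ha1
  have b6 : (0 : ℝ) ≤ a := Nat.cast_nonneg _
  have b7 : (1 : ℝ) ≤ s := by exact_mod_cast hs1
  have c1 : (b : ℝ) + l ≤ 21 / 2000 * k + 2 := by linarith
  have c2 : ((s : ℝ) + a) * (b + l) ≤ (s + a) * (21 / 2000 * k + 2) :=
    mul_le_mul_of_nonneg_left c1 (by linarith)
  have c3 : (F : ℝ) + a * (4 * k + 1) - a * a ≤ (s + a) * (411 / 10000 * k) := by
    have : ((s : ℝ) + a) * (2 * (21 / 2000 * k + 2) + k / 50) ≤ (s + a) * (411 / 10000 * k) :=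
      mul_le_mul_of_nonneg_left (by linarith) (by linarith)
    nlinarith
  have c4 : (a : ℝ) * a ≤ a * (k / 2000 + 1) := mul_le_mul_of_nonneg_left (by linarith) b6
  have c5 : (F : ℝ) ≤ s * (411 / 10000 * k) := by
    have : (a : ℝ) * (k / 2000 + 1) + a * (411 / 10000 * k) ≤ a * (4 * k + 1) := by
      rw [← mul_add]
      exact mul_le_mul_of_nonneg_left (by linarith) b6
    linarith [add_mul (s : ℝ) a (411 / 10000 * k)]
  have c6 : (s : ℝ) * ((min (s + 1) k : ℕ) : ℝ) ≤ F := by exact_mod_cast hFF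
  have c7 : ((min (s + 1) k : ℕ) : ℝ) ≤ 411 / 10000 * k := by
    have : (s : ℝ) * ((min (s + 1) k : ℕ) : ℝ) ≤ s * (411 / 10000 * k) := c6.trans c5
    exact le_of_mul_le_mul_left this (by linarith)
  rcases le_total (s + 1) k with h | h
  · rw [min_eq_left h] at c7
    push_cast at c7
    have : (20 : ℝ) * s ≤ k := by linarith
    exact_mod_cast this
  · rw [min_eq_right h] at c7
    linarith

/-- (T2B) -/
theorem pf_T2B (hFFA : T_FFA) (hFFD : T_FFD) : T_T2B := by
  classical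
  intro V _ G W L R k e b hcov hW hL hw hwl he hk hb hR hRR hff hn
  have hdWL : Disjoint W L := disjoint_left.2 fun v h => (hW v h).1
  have hdWR : Disjoint W R := disjoint_left.2 fun v h => (hW v h).2
  have hdLR : Disjoint L R := disjoint_left.2 fun v h => hL v h
  have huniv : (univ : Finset V) = (W ∪ L) ∪ R := by
    ext v
    rw [mem_union, mem_union]
    have := hcov v
    simp only [mem_univ, true_iff]
    tauto
  have hd : Disjoint (W ∪ L) R := disjoint_union_left.2 ⟨hdWR, hdLR⟩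
  have hcard : Fintype.card V = W.card + L.card + R.card := by
    rw [← card_univ, huniv, card_union_of_disjoint hd, card_union_of_disjoint hdWL]
  have hE : ee G univ univ = ee G (W ∪ L) (W ∪ L) + 2 * (ee G R W + ee G R L) + ee G R R := by
    rw [huniv, ee_union_left hd, ee_union_right hd, ee_union_right hd,
      ee_comm (W ∪ L) R, ee_union_right hdWL R]
    ring
  have hk1 : 1 ≤ k := by omega
  have hF : ff k (Fintype.card V) = ff k (Fintype.card V - 2 * k) + 2 * k * (2 * k + 1) := by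
    have := (hFFA k (Fintype.card V - 2 * k) hk1 (by omega)).2.2
    rw [← this]
    congr 1
    omega
  refine arith k e b W.card L.card R.card (Fintype.card V) (ee G (W ∪ L) (W ∪ L)) (ee G R W)
    (ee G R L) (ee G R R) (ee G univ univ) (ff k (Fintype.card V - 2 * k)) hcard hw hwl he hk hb
    ?_ ?_ ?_ hRR hE ?_ hn ?_
  · have := ee_self_le' G (W ∪ L)
    rwa [card_union_of_disjoint hdWL] at this
  · exact ee_le_of_forall G R W b fun v hv => (hR v hv).le
  · exact ee_le_mul R L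
  · rw [← hF]
    exact hff
  · have := hFFD k (Fintype.card V - 2 * k - 1) hk1
    have h2 : Fintype.card V - 2 * k - 1 + 1 = Fintype.card V - 2 * k := by omega
    rwa [h2] at this

end Pool.Agent.H67.VX
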