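import Pool.Agent.H30.VX.Targets
import Pool.Agent.H53.GW.MEN
import Pool.Agent.H55.GW.Basic

/-!
# MP_d32443_co, large `k`: row MNL (Menger's theorem, local form), adapted from
`Pool.Agent.H13.VR.MNG`
-/

set_option autoImplicit false

open Finset Pool.Agent.H48.CE Pool.Agent.H30.VR Pool.Agent.H30.VX

namespace Pool.Agent.H67.VX

open Pool.Agent.H55.GW

/-- (MNL) -/
theorem pf_MNL : T_MNL := by
  classical
  intro V ι _ _ G a Y ha hι
  by_cases hsep : ∃ P R : Finset V, Sp G (Fintype.card ι - 1) P R ∧ (∀ i, a i ∈ P) ∧ Y ⊆ R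
  · exact Or.inr hsep
  left
  have hright : ∀ (S : Set V) (x y : V), RIn G.Adj S x y → y ∈ S := by
    rintro S x y ⟨hx, h⟩
    induction h with
    | refl => exact hx
    | tail _ h _ => exact h.2
  have hL : Lnk G.Adj (Fintype.card ι) (Set.range a) (Y : Set V) := by
    refine Pool.Agent.H53.GW.men V G.Adj Set.univ Set.finite_univ
      (fun _ _ _ => ⟨trivial, trivial⟩) _ _ (Set.subset_univ _) (Set.subset_univ _) _
      (fun S hS => ?_)
    by_contra hlt
    push Not at hlt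
    obtain ⟨R, hR⟩ : ∃ R : Finset V, ∀ v, v ∈ R ↔ ∃ i, RIn G.Adj (S : Set V)ᶜ (a i) v :=
      ⟨Finset.univ.filter fun v => ∃ i, RIn G.Adj (S : Set V)ᶜ (a i) v, fun v => by simp⟩
    have hRS : ∀ v ∈ R, v ∉ S := by
      intro v hv
      obtain ⟨i, hi⟩ := (hR v).1 hv
      exact fun h => hright _ _ _ hi (Finset.mem_coe.2 h)
    refine hsep ⟨S ∪ R, Rᶜ, ⟨fun x => ?_, fun x _ hx y _ hy hadj => ?_, ?_⟩, fun i => ?_,
      fun y hy => ?_⟩
    · by_cases h : x ∈ R
      · exact Or.inl (Finset.mem_union_right _ h)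
      · exact Or.inr (Finset.mem_compl.2 h)
    · rw [Finset.mem_compl, not_not] at hx
      rw [Finset.mem_union, not_or] at hy
      obtain ⟨i, hi⟩ := (hR x).1 hx
      exact hy.2 ((hR y).2 ⟨i, hi.1, hi.2.tail ⟨hadj, fun h => hy.1 (Finset.mem_coe.1 h)⟩⟩)
    · have h1 : (S ∪ R).filter (fun x => x ∈ Rᶜ) ⊆ S := by
        intro x hx
        obtain ⟨h1, h2⟩ := Finset.mem_filter.1 hx
        exact (Finset.mem_union.1 h1).resolve_right (Finset.mem_compl.1 h2)
      have := Finset.card_le_card h1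
      omega
    · by_cases hi : a i ∈ S
      · exact Finset.mem_union_left _ hi
      · exact Finset.mem_union_right _ ((hR (a i)).2
          ⟨i, fun h => hi (Finset.mem_coe.1 h), Relation.ReflTransGen.refl⟩)
    · rw [Finset.mem_compl]
      intro h
      obtain ⟨i, hi⟩ := (hR y).1 h
      exact hS (a i) ⟨i, rfl⟩ y (Finset.mem_coe.2 hy) hi
  obtain ⟨x, y, S, h1, h2⟩ := hL
  choose f hf using fun i => (h1 i).1
  have hfi : Function.Injective f := by
    intro i j hij
    by_contra hne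
    have e : x i = x j := by rw [← hf i, ← hf j, hij]
    exact Set.disjoint_left.1 (h2 i j hne) (h1 i).2.2.1 (by rw [e]; exact (h1 j).2.2.1)
  have hfb : Function.Bijective f :=
    (Fintype.bijective_iff_injective_and_card f).2 ⟨hfi, by rw [Fintype.card_fin]⟩
  obtain ⟨e, he⟩ : ∃ e : Fin (Fintype.card ι) ≃ ι, ∀ i, e i = f i :=
    ⟨Equiv.ofBijective f hfb, fun i => rfl⟩
  choose l hl using fun i => (h1 i).2.2.exists_path
  refine ⟨fun i => l (e.symm i), ⟨fun i => (hl _).1.1, fun i => (hl _).1.2.1, fun i => ?_,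
    fun i => ⟨y (e.symm i), Finset.mem_coe.1 (h1 _).2.1, (hl _).1.2.2.2⟩,
    fun i j hij v hv hv' => ?_⟩⟩
  · have e1 : x (e.symm i) = a i := by
      rw [← hf, ← he, e.apply_symm_apply]
    rw [← e1]
    exact (hl _).1.2.2.1
  · exact Set.disjoint_left.1 (h2 _ _ fun h => hij (e.symm.injective h)) ((hl _).2 v hv)
      ((hl _).2 v hv')

end Pool.Agent.H67.VX
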